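import Mathlib

/-!
# Partially greedy bases along sequences with arbitrarily large gaps

For EVERY strictly increasing sequence `n` of positive integers with arbitrarily large gaps, and
over both scalar fields, we construct a (monotone) Schauder basis of a Banach space which is
`n`-quasi-greedy and `n`-order-conservative, but not `n`-partially greedy.

Indexing convention: the basis is indexed by `ℕ` from `0`, so `e i` is the vector the problem
calls `e_{i+1}`. Accordingly `S_m x = ∑_{i < m} e_i^*(x) e_i`, and `A ≤ n < B` reads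
`i < n` for `i ∈ A` and `n ≤ i` for `i ∈ B`.
-/

open Finset Filter Topology

namespace Pool.Agent.Results.MP_6095cf_an.LargeGaps

section Defs

variable {𝕜 : Type} [RCLike 𝕜] {X : Type} [NormedAddCommGroup X] [NormedSpace 𝕜 X]

/-- The projection `P_A x = ∑_{i ∈ A} e_i^*(x) e_i` onto a finite set of coordinates. -/
noncomputable def proj (e : ℕ → X) (es : ℕ → X →L[𝕜] 𝕜) (A : Finset ℕ) (x : X) : X :=
  ∑ i ∈ A, es i x • e i

/-- `(e_i)` with functionals `(e_i^*)` is a Schauder basis in the sense of the problem: a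
semi-normalised Markushevich basis whose partial sum operators are uniformly bounded. -/
structure IsSchauderBasis (e : ℕ → X) (es : ℕ → X →L[𝕜] 𝕜) : Prop where
  biorthogonal : ∀ i j, es i (e j) = if i = j then 1 else 0
  dense_span : (Submodule.span 𝕜 (Set.range e)).topologicalClosure = ⊤
  total : ∀ x, (∀ i, es i x = 0) → x = 0
  bounded : ∃ C : ℝ, ∀ i, ‖e i‖ ≤ C ∧ ‖es i‖ ≤ C
  partialSums : ∃ C : ℝ, ∀ m x, ‖proj e es (range m) x‖ ≤ C * ‖x‖

/-- `A` is a greedy set of `x` (of order `A.card`):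
`min_{i ∈ A} |e_i^*(x)| ≥ max_{j ∉ A} |e_j^*(x)|`. -/
def IsGreedySet (es : ℕ → X →L[𝕜] 𝕜) (x : X) (A : Finset ℕ) : Prop :=
  ∀ i ∈ A, ∀ j, j ∉ A → ‖es j x‖ ≤ ‖es i x‖

/-- `n`-quasi-greedy. -/
def QuasiGreedy (n : ℕ → ℕ) (e : ℕ → X) (es : ℕ → X →L[𝕜] 𝕜) : Prop :=
  ∃ C : ℝ, ∀ (x : X) (k : ℕ) (A : Finset ℕ), A.card = n k → IsGreedySet es x A →
    ‖proj e es A x‖ ≤ C * ‖x‖

/-- `n`-partially greedy. -/
def PartiallyGreedy (n : ℕ → ℕ) (e : ℕ → X) (es : ℕ → X →L[𝕜] 𝕜) : Prop :=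
  ∃ C : ℝ, ∀ (x : X) (k : ℕ) (A : Finset ℕ), A.card = n k → IsGreedySet es x A →
    ‖x - proj e es A x‖ ≤ C * ‖x - proj e es (range (n k)) x‖

/-- `n`-order-conservative. -/
def OrderConservative (n : ℕ → ℕ) (e : ℕ → X) : Prop :=
  ∃ C : ℝ, ∀ (k : ℕ) (A B : Finset ℕ), A.card = B.card → (∀ i ∈ A, i < n k) →
    (∀ i ∈ B, n k ≤ i) → ‖∑ i ∈ A, e i‖ ≤ C * ‖∑ i ∈ B, e i‖

/-- The signed (a priori stronger) form of `n`-order-conservativeness: arbitrary unimodular
scalars are allowed on both sets. -/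
def SignedOrderConservative (𝕜 : Type) [RCLike 𝕜] {X : Type} [NormedAddCommGroup X]
    [NormedSpace 𝕜 X] (n : ℕ → ℕ) (e : ℕ → X) : Prop :=
  ∃ C : ℝ, ∀ (k : ℕ) (A B : Finset ℕ) (ε δ : ℕ → 𝕜), A.card = B.card → (∀ i ∈ A, i < n k) →
    (∀ i ∈ B, n k ≤ i) → (∀ i, ‖ε i‖ = 1) → (∀ i, ‖δ i‖ = 1) →
    ‖∑ i ∈ A, ε i • e i‖ ≤ C * ‖∑ i ∈ B, δ i • e i‖

end Defs

/-- `limsup_k n_{k+1} / n_k = +∞`. -/
def ArbitrarilyLargeGaps (n : ℕ → ℕ) : Prop :=
  limsup (fun k => ((n (k + 1) : ENNReal) / (n k : ENNReal))) atTop = ⊤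

section Space

variable (𝕜 : Type) [RCLike 𝕜]

/-- Parameters of the construction. -/
structure Params where
  p : ℕ → ℕ
  m : ℕ → ℕ
  b : ℕ → ℕ
  p_pos : ∀ t, 0 < p t

variable {𝕜}

/-- The norming functionals. -/
def Adm (P : Params) (g : ℕ →₀ 𝕜) : Prop :=
  (∀ i, ‖g i‖ * √(g.support.card : ℝ) ≤ 1) ∨
  (∃ t, (∀ i ∈ g.support, P.b t + 2 * P.m t ≤ i) ∧ g.support.card ≤ P.m t ∧
      ∀ i, ‖g i‖ * √(P.p t : ℝ) ≤ 1) ∨
  (∃ t u v, P.b t ≤ u ∧ v ≤ P.b t + 2 * P.m t ∧
      g = Finsupp.indicator (Ico u v) (fun _ _ => ((√(P.p t : ℝ))⁻¹ : 𝕜)))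

variable (𝕜)

/-- Index type of the norming functionals (discrete topology). -/
structure Idx (P : Params) : Type where
  val : ℕ →₀ 𝕜
  adm : Adm P val

instance (P : Params) : TopologicalSpace (Idx 𝕜 P) := ⊥
instance (P : Params) : DiscreteTopology (Idx 𝕜 P) := ⟨rfl⟩

variable {𝕜}

lemma one_le_sqrt_nat {k : ℕ} (hk : 0 < k) : (1 : ℝ) ≤ √(k : ℝ) := by
  rw [Real.one_le_sqrt]; exact_mod_cast hk

lemma le_one_of_mul_sqrt {a : ℝ} (ha : 0 ≤ a) {k : ℕ} (hk : 0 < k) (h : a * √(k : ℝ) ≤ 1) :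
    a ≤ 1 := by
  have := one_le_sqrt_nat hk
  nlinarith

lemma Adm.norm_le_one {P : Params} {g : ℕ →₀ 𝕜} (hg : Adm P g) (i : ℕ) : ‖g i‖ ≤ 1 := by
  rcases hg with h | ⟨t, -, -, h⟩ | ⟨t, u, v, -, -, rfl⟩
  · by_cases hi : i ∈ g.support
    · exact le_one_of_mul_sqrt (norm_nonneg _) (Finset.card_pos.mpr ⟨i, hi⟩) (h i)
    · rw [Finsupp.notMem_support_iff.mp hi]; simp
  · exact le_one_of_mul_sqrt (norm_nonneg _) (P.p_pos t) (h i)
  · rw [Finsupp.indicator_apply]
    split_ifs
    · rw [norm_inv, RCLike.norm_ofReal, abs_of_nonneg (Real.sqrt_nonneg _)]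
      exact inv_le_one_of_one_le₀ (one_le_sqrt_nat (P.p_pos t))
    · simp

/-- The unit vectors inside the big `ℓ∞` space. -/
noncomputable def vecE (P : Params) (i : ℕ) : BoundedContinuousFunction (Idx 𝕜 P) 𝕜 :=
  BoundedContinuousFunction.ofNormedAddCommGroupDiscrete (fun g => g.val i) 1
    (fun g => g.adm.norm_le_one i)

lemma vecE_apply (P : Params) (i : ℕ) (g : Idx 𝕜 P) : vecE P i g = g.val i := rfl

variable (𝕜) in
/-- The Banach space: closed span of the unit vectors. -/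
noncomputable def spc (P : Params) : Submodule 𝕜 (BoundedContinuousFunction (Idx 𝕜 P) 𝕜) :=
  (Submodule.span 𝕜 (Set.range (vecE (𝕜 := 𝕜) P))).topologicalClosure

variable (𝕜) in
abbrev Sp (P : Params) : Type := spc 𝕜 P

instance (P : Params) : CompleteSpace (Sp 𝕜 P) := by
  unfold Sp spc
  infer_instance

noncomputable def bas (P : Params) (i : ℕ) : Sp 𝕜 P :=
  ⟨vecE P i, Submodule.le_topologicalClosure _ (Submodule.subset_span ⟨i, rfl⟩)⟩

lemma adm_single (P : Params) (i : ℕ) : Adm P (Finsupp.single i (1 : 𝕜)) := by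
  left
  intro j
  have h1 : (Finsupp.single i (1 : 𝕜)).support = {i} := Finsupp.support_single i one_ne_zero
  rw [h1]
  simp only [card_singleton, Nat.cast_one, Real.sqrt_one, mul_one]
  rw [Finsupp.single_apply]
  split_ifs <;> simp

/-- The index of the coordinate functional. -/
noncomputable def unitIdx (P : Params) (i : ℕ) : Idx 𝕜 P := ⟨Finsupp.single i 1, adm_single P i⟩

noncomputable def coo (P : Params) (i : ℕ) : Sp 𝕜 P →L[𝕜] 𝕜 :=
  (BoundedContinuousFunction.evalCLM 𝕜 (unitIdx P i)).comp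
    (spc 𝕜 P).subtypeL

lemma coo_apply (P : Params) (i : ℕ) (x : Sp 𝕜 P) :
    coo P i x = x.1 (unitIdx P i) := rfl

lemma vecE_unitIdx (P : Params) (i j : ℕ) :
    vecE P j (unitIdx (𝕜 := 𝕜) P i) = if i = j then 1 else 0 := by
  show (Finsupp.single i (1:𝕜)) j = _
  rw [Finsupp.single_apply]

lemma coo_bas (P : Params) (i j : ℕ) : coo P i (bas (𝕜 := 𝕜) P j) = if i = j then 1 else 0 := by
  rw [coo_apply]
  exact vecE_unitIdx P i j

/-- every functional is given by its finitely many coefficients -/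
lemma eval_eq (P : Params) (x : Sp 𝕜 P) (g : Idx 𝕜 P) :
    x.1 g = ∑ i ∈ g.val.support, g.val i * coo P i x := by
  obtain ⟨x, hx⟩ := x
  have hcl : IsClosed {y : BoundedContinuousFunction (Idx 𝕜 P) 𝕜 |
      y g = ∑ i ∈ g.val.support, g.val i * y (unitIdx P i)} := by
    apply isClosed_eq
    · exact (BoundedContinuousFunction.evalCLM 𝕜 g).continuous
    · refine continuous_finsetSum _ fun i _ => ?_
      exact continuous_const.mul (BoundedContinuousFunction.evalCLM 𝕜
        (unitIdx P i)).continuous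
  have hsub : (Submodule.span 𝕜 (Set.range (vecE (𝕜 := 𝕜) P)) : Set _) ⊆
      {y : BoundedContinuousFunction (Idx 𝕜 P) 𝕜 |
      y g = ∑ i ∈ g.val.support, g.val i * y (unitIdx P i)} := by
    intro y hy
    have hy' : y ∈ Submodule.span 𝕜 (Set.range (vecE (𝕜 := 𝕜) P)) := hy
    clear hy
    induction hy' using Submodule.span_induction with
    | mem y hy =>
      obtain ⟨j, rfl⟩ := hy
      simp only [Set.mem_ofPred_eq, vecE_unitIdx]
      rw [vecE_apply]
      simp only [mul_ite, mul_one, mul_zero, Finset.sum_ite_eq']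
      split_ifs with hj
      · rfl
      · exact Finsupp.notMem_support_iff.mp hj
    | zero => simp
    | add y z _ _ hy hz =>
      simp only [Set.mem_ofPred_eq, BoundedContinuousFunction.coe_add, Pi.add_apply] at *
      rw [hy, hz, ← Finset.sum_add_distrib]
      exact Finset.sum_congr rfl fun i _ => by ring
    | smul c y _ hy =>
      simp only [Set.mem_ofPred_eq, BoundedContinuousFunction.coe_smul, smul_eq_mul] at *
      rw [hy, Finset.mul_sum]
      exact Finset.sum_congr rfl fun i _ => by ring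
  exact hcl.closure_subset_iff.mpr hsub hx

lemma norm_eval_le (P : Params) (x : Sp 𝕜 P) (g : ℕ →₀ 𝕜) (hg : Adm P g) :
    ‖∑ i ∈ g.support, g i * coo P i x‖ ≤ ‖x‖ := by
  have := eval_eq P x ⟨g, hg⟩
  rw [← this]
  exact x.1.norm_coe_le_norm _

lemma norm_le_of_forall (P : Params) (x : Sp 𝕜 P) {C : ℝ} (hC : 0 ≤ C)
    (h : ∀ g : ℕ →₀ 𝕜, Adm P g → ‖∑ i ∈ g.support, g i * coo P i x‖ ≤ C) : ‖x‖ ≤ C := by
  have : ‖x.1‖ ≤ C := by
    rw [BoundedContinuousFunction.norm_le hC]
    intro g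
    rw [eval_eq P x g]
    exact h g.1 g.2
  exact this

/-! ### The norm in terms of coordinates -/

lemma exists_sign (z : 𝕜) : ∃ s : 𝕜, ‖s‖ ≤ 1 ∧ s * z = (‖z‖ : 𝕜) := by
  by_cases hz : z = 0
  · exact ⟨0, by simp, by simp [hz]⟩
  · refine ⟨(‖z‖ : 𝕜) / z, ?_, div_mul_cancel₀ _ hz⟩
    rw [norm_div, RCLike.norm_ofReal, abs_norm]
    exact div_self_le_one _

/-- A general lower estimate: a bounded modulus functional on a finite set. -/
lemma sum_norm_le_aux (P : Params) (x : Sp 𝕜 P) (F : Finset ℕ) {s : ℝ} (hs : 0 < s)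
    (hadm : ∀ g : ℕ →₀ 𝕜, g.support ⊆ F → (∀ i, ‖g i‖ ≤ s⁻¹) → Adm P g) :
    ∑ i ∈ F, ‖coo P i x‖ ≤ s * ‖x‖ := by
  choose σ hσ1 hσ2 using fun z : 𝕜 => exists_sign z
  let g : ℕ →₀ 𝕜 := Finsupp.indicator F (fun i _ => ((s⁻¹ : ℝ) : 𝕜) * σ (coo P i x))
  have hsup : g.support ⊆ F := Finsupp.support_indicator_subset _ _
  have hbd : ∀ i, ‖g i‖ ≤ s⁻¹ := by
    intro i
    simp only [g, Finsupp.indicator_apply]
    split_ifs
    · rw [norm_mul, RCLike.norm_ofReal, abs_of_pos (inv_pos.mpr hs)]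
      exact mul_le_of_le_one_right (inv_pos.mpr hs).le (hσ1 _)
    · simpa using (inv_pos.mpr hs).le
  have h := norm_eval_le P x g (hadm g hsup hbd)
  have h2 : ∑ i ∈ g.support, g i * coo P i x = ((s⁻¹ * ∑ i ∈ F, ‖coo P i x‖ : ℝ) : 𝕜) := by
    rw [Finset.sum_subset hsup (fun i _ hi => by rw [Finsupp.notMem_support_iff.mp hi, zero_mul])]
    rw [Finset.mul_sum]
    push_cast
    refine Finset.sum_congr rfl fun i hi => ?_
    simp only [g, Finsupp.indicator_apply, dif_pos hi]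
    rw [mul_assoc, hσ2]
    push_cast
    ring
  rw [h2, RCLike.norm_ofReal, abs_of_nonneg (by positivity)] at h
  rwa [inv_mul_le_iff₀ hs] at h

lemma sum_norm_le_sqrt (P : Params) (x : Sp 𝕜 P) (F : Finset ℕ) :
    ∑ i ∈ F, ‖coo P i x‖ ≤ √(F.card : ℝ) * ‖x‖ := by
  rcases F.eq_empty_or_nonempty with rfl | hF
  · simp
  have hpos : 0 < √(F.card : ℝ) := Real.sqrt_pos.mpr (by exact_mod_cast hF.card_pos)
  refine sum_norm_le_aux P x F hpos fun g hsup hbd => Or.inl fun i => ?_
  calc ‖g i‖ * √(g.support.card : ℝ) ≤ (√(F.card : ℝ))⁻¹ * √(F.card : ℝ) := by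
        refine mul_le_mul (hbd i) (Real.sqrt_le_sqrt ?_) (Real.sqrt_nonneg _) (by positivity)
        exact_mod_cast Finset.card_le_card hsup
    _ = 1 := inv_mul_cancel₀ hpos.ne'

lemma sum_norm_le_far (P : Params) (x : Sp 𝕜 P) (t : ℕ) (F : Finset ℕ)
    (hF : ∀ i ∈ F, P.b t + 2 * P.m t ≤ i) (hc : F.card ≤ P.m t) :
    ∑ i ∈ F, ‖coo P i x‖ ≤ √(P.p t : ℝ) * ‖x‖ := by
  have hpos : 0 < √(P.p t : ℝ) := Real.sqrt_pos.mpr (by exact_mod_cast P.p_pos t)
  refine sum_norm_le_aux P x F hpos fun g hsup hbd => Or.inr (Or.inl ⟨t, fun i hi => hF i (hsup hi),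
    (Finset.card_le_card hsup).trans hc, fun i => ?_⟩)
  calc ‖g i‖ * √(P.p t : ℝ) ≤ (√(P.p t : ℝ))⁻¹ * √(P.p t : ℝ) :=
        mul_le_mul_of_nonneg_right (hbd i) hpos.le
    _ = 1 := inv_mul_cancel₀ hpos.ne'

lemma norm_sum_block_le (P : Params) (x : Sp 𝕜 P) (t u v : ℕ) (hu : P.b t ≤ u)
    (hv : v ≤ P.b t + 2 * P.m t) :
    ‖∑ i ∈ Ico u v, coo P i x‖ ≤ √(P.p t : ℝ) * ‖x‖ := by
  have hpos : 0 < √(P.p t : ℝ) := Real.sqrt_pos.mpr (by exact_mod_cast P.p_pos t)
  have h := norm_eval_le P x (Finsupp.indicator (Ico u v) (fun _ _ => ((√(P.p t : ℝ))⁻¹ : 𝕜)))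
    (Or.inr (Or.inr ⟨t, u, v, hu, hv, rfl⟩))
  rw [Finset.sum_subset (Finsupp.support_indicator_subset _ _)
    (fun i _ hi => by rw [Finsupp.notMem_support_iff.mp hi, zero_mul])] at h
  have h2 : ∑ i ∈ Ico u v, (Finsupp.indicator (Ico u v) (fun _ _ => ((√(P.p t : ℝ))⁻¹ : 𝕜))) i
      * coo P i x = ((√(P.p t : ℝ))⁻¹ : 𝕜) * ∑ i ∈ Ico u v, coo P i x := by
    rw [Finset.mul_sum]
    refine Finset.sum_congr rfl fun i hi => ?_
    rw [Finsupp.indicator_apply, dif_pos hi]
  rw [h2, norm_mul, norm_inv, RCLike.norm_ofReal, abs_of_pos hpos, inv_mul_le_iff₀ hpos] at h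
  exact h

lemma norm_le_of_coords (P : Params) (x : Sp 𝕜 P) {C : ℝ} (hC : 0 ≤ C)
    (h1 : ∀ F : Finset ℕ, ∑ i ∈ F, ‖coo P i x‖ ≤ √(F.card : ℝ) * C)
    (h2 : ∀ (t : ℕ) (F : Finset ℕ), (∀ i ∈ F, P.b t + 2 * P.m t ≤ i) → F.card ≤ P.m t →
      ∑ i ∈ F, ‖coo P i x‖ ≤ √(P.p t : ℝ) * C)
    (h3 : ∀ t u v : ℕ, P.b t ≤ u → v ≤ P.b t + 2 * P.m t →
      ‖∑ i ∈ Ico u v, coo P i x‖ ≤ √(P.p t : ℝ) * C) : ‖x‖ ≤ C := by
  have key : ∀ (g : ℕ →₀ 𝕜) (s : ℝ), 0 < s → (∀ i, ‖g i‖ * s ≤ 1) →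
      ∑ i ∈ g.support, ‖coo P i x‖ ≤ s * C → ‖∑ i ∈ g.support, g i * coo P i x‖ ≤ C := by
    intro g s hs hg hsum
    calc ‖∑ i ∈ g.support, g i * coo P i x‖ ≤ ∑ i ∈ g.support, ‖g i * coo P i x‖ :=
          norm_sum_le _ _
      _ ≤ ∑ i ∈ g.support, s⁻¹ * ‖coo P i x‖ := by
          refine Finset.sum_le_sum fun i _ => ?_
          rw [norm_mul]
          refine mul_le_mul_of_nonneg_right ?_ (norm_nonneg _)
          rw [← one_div, le_div_iff₀ hs]
          exact hg i
      _ = s⁻¹ * ∑ i ∈ g.support, ‖coo P i x‖ := by rw [Finset.mul_sum]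
      _ ≤ s⁻¹ * (s * C) := mul_le_mul_of_nonneg_left hsum (inv_pos.mpr hs).le
      _ = C := by rw [← mul_assoc, inv_mul_cancel₀ hs.ne', one_mul]
  refine norm_le_of_forall P x hC fun g hg => ?_
  rcases hg with h | ⟨t, hb, hc, h⟩ | ⟨t, u, v, hu, hv, rfl⟩
  · rcases g.support.eq_empty_or_nonempty with he | hne
    · rw [he]; simpa using hC
    · exact key g _ (Real.sqrt_pos.mpr (by exact_mod_cast hne.card_pos)) h (h1 _)
  · exact key g _ (Real.sqrt_pos.mpr (by exact_mod_cast P.p_pos t)) h (h2 t _ hb hc)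
  · have hpos : 0 < √(P.p t : ℝ) := Real.sqrt_pos.mpr (by exact_mod_cast P.p_pos t)
    rw [Finset.sum_subset (Finsupp.support_indicator_subset _ _)
      (fun i _ hi => by rw [Finsupp.notMem_support_iff.mp hi, zero_mul])]
    have h2 : ∑ i ∈ Ico u v, (Finsupp.indicator (Ico u v) (fun _ _ => ((√(P.p t : ℝ))⁻¹ : 𝕜))) i
        * coo P i x = ((√(P.p t : ℝ))⁻¹ : 𝕜) * ∑ i ∈ Ico u v, coo P i x := by
      rw [Finset.mul_sum]
      refine Finset.sum_congr rfl fun i hi => ?_
      rw [Finsupp.indicator_apply, dif_pos hi]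
    rw [h2, norm_mul, norm_inv, RCLike.norm_ofReal, abs_of_pos hpos, inv_mul_le_iff₀ hpos]
    exact h3 t u v hu hv

lemma coo_proj (P : Params) (A : Finset ℕ) (x : Sp 𝕜 P) (i : ℕ) :
    coo P i (proj (bas P) (coo P) A x) = if i ∈ A then coo P i x else 0 := by
  unfold proj
  rw [map_sum]
  simp only [map_smul, coo_bas, smul_eq_mul, mul_ite, mul_one, mul_zero]
  rw [Finset.sum_ite_eq]

lemma coo_sum (P : Params) (A : Finset ℕ) (c : ℕ → 𝕜) (i : ℕ) :
    coo P i (∑ j ∈ A, c j • bas P j) = if i ∈ A then c i else 0 := by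
  rw [map_sum]
  simp only [map_smul, coo_bas, smul_eq_mul, mul_ite, mul_one, mul_zero]
  rw [Finset.sum_ite_eq]

end Space


/-! ### The good parameters -/

/-- Everything the construction needs about the sequence `n`. -/
structure Good (n : ℕ → ℕ) (P : Params) (q : ℕ → ℕ) : Prop where
  n_pos : ∀ k, 0 < n k
  q_mem : ∀ t, ∃ k, n k = q t
  cons : ∀ t k, n k ≤ P.p t ∨ q t ≤ n k
  q_le_b : ∀ t, q t ≤ P.b t
  b_cons : ∀ t k, n k ≤ P.b t ∨ P.b t + 2 * P.m t ≤ n k
  next : ∀ t, P.b t + 2 * P.m t ≤ P.p (t + 1)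
  m_eq : ∀ t, P.m t = (t + 1) * P.p t
  m_le : ∀ t, P.m t ≤ q t
  m_sq : ∀ t, P.m t ^ 2 ≤ P.p t * q t

lemma exists_good (n : ℕ → ℕ) (hpos : ∀ k, 0 < n k) (hmono : StrictMono n)
    (hgap : ArbitrarilyLargeGaps n) : ∃ P q, Good n P q := by
  have hfreq : ∀ M : ℕ, ∃ᶠ k in atTop, M * n k < n (k + 1) := by
    intro M
    have h : ((M : ℕ) : ENNReal) <
        limsup (fun k => ((n (k + 1) : ENNReal) / (n k : ENNReal))) atTop := by
      rw [hgap]; exact ENNReal.natCast_lt_top M
    refine (frequently_lt_of_lt_limsup (by isBoundedDefault) h).mono fun k hk => ?_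
    rw [ENNReal.lt_div_iff_mul_lt (Or.inl (by exact_mod_cast (hpos k).ne'))
      (Or.inl (ENNReal.natCast_ne_top _))] at hk
    exact_mod_cast hk
  obtain ⟨φ, hφ, hgapφ⟩ := extraction_forall_of_frequently (P := fun s k =>
    (s + 3) ^ 2 * n k < n (k + 1)) (fun s => hfreq _)
  have hφ' : ∀ a b, a < b → φ a + 1 ≤ φ b := fun a b hab => hφ hab
  let P : Params := ⟨fun t => n (φ (2 * t)), fun t => (t + 1) * n (φ (2 * t)),
    fun t => n (φ (2 * t + 1)), fun t => hpos _⟩
  have hm_le : ∀ t, P.m t ≤ n (φ (2 * t) + 1) := by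
    intro t
    have h := hgapφ (2 * t)
    have : (t + 1) * n (φ (2 * t)) ≤ (2 * t + 3) ^ 2 * n (φ (2 * t)) := by
      apply Nat.mul_le_mul_right; nlinarith
    exact this.trans h.le
  have hb : ∀ t, P.b t + 2 * P.m t ≤ n (φ (2 * t + 1) + 1) := by
    intro t
    have h := hgapφ (2 * t + 1)
    have h1 : P.m t ≤ P.b t := (hm_le t).trans (hmono.monotone (hφ' _ _ (by omega)))
    have h2 : 3 * P.b t ≤ (2 * t + 1 + 3) ^ 2 * n (φ (2 * t + 1)) := by
      exact Nat.mul_le_mul_right _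
        (le_trans (by norm_num) (Nat.pow_le_pow_left (show 2 ≤ 2 * t + 1 + 3 by omega) 2))
    omega
  refine ⟨P, fun t => n (φ (2 * t) + 1), hpos, fun t => ⟨_, rfl⟩, ?_, ?_, ?_, ?_, ?_, hm_le, ?_⟩
  · intro t k
    rcases Nat.lt_or_ge (φ (2 * t)) k with h | h
    · exact Or.inr (hmono.monotone h)
    · exact Or.inl (hmono.monotone h)
  · intro t; exact hmono.monotone (hφ' _ _ (by omega))
  · intro t k
    rcases Nat.lt_or_ge (φ (2 * t + 1)) k with h | h
    · exact Or.inr ((hb t).trans (hmono.monotone h))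
    · exact Or.inl (hmono.monotone h)
  · intro t
    exact (hb t).trans (hmono.monotone (hφ' _ _ (by omega)))
  · intro t; rfl
  · intro t
    have h := hgapφ (2 * t)
    have h1 : (t + 1) ^ 2 * n (φ (2 * t)) ≤ (2 * t + 3) ^ 2 * n (φ (2 * t)) := by
      apply Nat.mul_le_mul_right; nlinarith
    have h2 : (t + 1) ^ 2 * n (φ (2 * t)) ≤ n (φ (2 * t) + 1) := h1.trans h.le
    calc ((t + 1) * n (φ (2 * t))) ^ 2 = n (φ (2 * t)) * ((t + 1) ^ 2 * n (φ (2 * t))) := by ring
      _ ≤ n (φ (2 * t)) * n (φ (2 * t) + 1) := Nat.mul_le_mul_left _ h2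

section Main

variable {𝕜 : Type} [RCLike 𝕜] {n : ℕ → ℕ} {P : Params} {q : ℕ → ℕ}

lemma sqrt_mul_self_nat (k : ℕ) : √(k : ℝ) * √(k : ℝ) = k := Real.mul_self_sqrt (Nat.cast_nonneg _)

lemma m_le_sqrt (hP : Good n P q) (t : ℕ) {N : ℕ} (hN : q t ≤ N) :
    (P.m t : ℝ) ≤ √(P.p t : ℝ) * √(N : ℝ) := by
  rw [← Real.sqrt_mul (Nat.cast_nonneg _)]
  apply Real.le_sqrt_of_sq_le
  have h := (hP.m_sq t).trans (Nat.mul_le_mul_left (P.p t) hN)
  exact_mod_cast h

lemma sum_proj_norm (A F : Finset ℕ) (x : Sp 𝕜 P) :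
    ∑ i ∈ F, ‖coo P i (proj (bas P) (coo P) A x)‖ = ∑ i ∈ F ∩ A, ‖coo P i x‖ := by
  rw [← Finset.filter_mem_eq_inter, Finset.sum_filter]
  refine Finset.sum_congr rfl fun i _ => ?_
  rw [coo_proj]
  split_ifs <;> simp

lemma sum_proj (A F : Finset ℕ) (x : Sp 𝕜 P) :
    ∑ i ∈ F, coo P i (proj (bas P) (coo P) A x) = ∑ i ∈ F ∩ A, coo P i x := by
  rw [← Finset.filter_mem_eq_inter, Finset.sum_filter]
  refine Finset.sum_congr rfl fun i _ => ?_
  rw [coo_proj]

/-- monotonicity of the partial sums -/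
lemma partialSum_le (m : ℕ) (x : Sp 𝕜 P) :
    ‖proj (bas P) (coo P) (range m) x‖ ≤ ‖x‖ := by
  refine norm_le_of_coords P _ (norm_nonneg _) ?_ ?_ ?_
  · intro F
    rw [sum_proj_norm]
    exact (Finset.sum_le_sum_of_subset_of_nonneg Finset.inter_subset_left
      (fun _ _ _ => norm_nonneg _)).trans (sum_norm_le_sqrt P x F)
  · intro t F hF hc
    rw [sum_proj_norm]
    exact (Finset.sum_le_sum_of_subset_of_nonneg Finset.inter_subset_left
      (fun _ _ _ => norm_nonneg _)).trans (sum_norm_le_far P x t F hF hc)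
  · intro t u v hu hv
    rw [sum_proj]
    have : Ico u v ∩ range m = Ico u (min v m) := by
      ext i; simp only [mem_inter, mem_Ico, mem_range]; omega
    rw [this]
    exact norm_sum_block_le P x t u _ hu ((min_le_left _ _).trans hv)

lemma quasiGreedy (hP : Good n P q) : QuasiGreedy n (bas (𝕜 := 𝕜) P) (coo P) := by
  refine ⟨3, fun x k A hA hgr => ?_⟩
  refine norm_le_of_coords P _ (by positivity) ?_ ?_ ?_
  · intro F
    rw [sum_proj_norm]
    refine (Finset.sum_le_sum_of_subset_of_nonneg Finset.inter_subset_left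
      (fun _ _ _ => norm_nonneg _)).trans ((sum_norm_le_sqrt P x F).trans ?_)
    exact mul_le_mul_of_nonneg_left (by linarith [norm_nonneg x]) (Real.sqrt_nonneg _)
  · intro t F hF hc
    rw [sum_proj_norm]
    refine (Finset.sum_le_sum_of_subset_of_nonneg Finset.inter_subset_left
      (fun _ _ _ => norm_nonneg _)).trans ((sum_norm_le_far P x t F hF hc).trans ?_)
    exact mul_le_mul_of_nonneg_left (by linarith [norm_nonneg x]) (Real.sqrt_nonneg _)
  · intro t u v hu hv
    rw [sum_proj]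
    have hx := norm_nonneg x
    have hsp := Real.sqrt_nonneg (P.p t : ℝ)
    rcases hP.cons t k with hk | hk
    · -- few coordinates
      calc ‖∑ i ∈ Ico u v ∩ A, coo P i x‖ ≤ ∑ i ∈ Ico u v ∩ A, ‖coo P i x‖ := norm_sum_le _ _
        _ ≤ √((Ico u v ∩ A).card : ℝ) * ‖x‖ := sum_norm_le_sqrt P x _
        _ ≤ √(P.p t : ℝ) * ‖x‖ := by
            refine mul_le_mul_of_nonneg_right (Real.sqrt_le_sqrt ?_) hx
            have : (Ico u v ∩ A).card ≤ P.p t :=
              (Finset.card_le_card Finset.inter_subset_right).trans (hA.le.trans hk)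
            exact_mod_cast this
        _ ≤ √(P.p t : ℝ) * (3 * ‖x‖) := mul_le_mul_of_nonneg_left (by linarith) hsp
    · -- many large coordinates
      have hnk : 0 < √(n k : ℝ) := Real.sqrt_pos.mpr (by exact_mod_cast hP.n_pos k)
      have hsmall : ∀ j, j ∉ A → ‖coo P j x‖ * √(n k : ℝ) ≤ ‖x‖ := by
        intro j hj
        have h1 : (n k : ℝ) * ‖coo P j x‖ ≤ ∑ i ∈ A, ‖coo P i x‖ := by
          rw [← hA, ← nsmul_eq_mul]
          exact Finset.card_nsmul_le_sum _ _ _ fun i hi => hgr i hi j hj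
        have h2 := sum_norm_le_sqrt P x A
        rw [hA] at h2
        have h3 : √(n k : ℝ) * (√(n k : ℝ) * ‖coo P j x‖) ≤ √(n k : ℝ) * ‖x‖ := by
          rw [← mul_assoc, sqrt_mul_self_nat]; exact h1.trans h2
        have := le_of_mul_le_mul_left h3 hnk
        linarith
      have hsplit : ∑ i ∈ Ico u v ∩ A, coo P i x
          = ∑ i ∈ Ico u v, coo P i x - ∑ i ∈ Ico u v \ A, coo P i x := by
        rw [eq_sub_iff_add_eq, Finset.sum_inter_add_sum_sdiff]
      have hD : ∑ i ∈ Ico u v \ A, ‖coo P i x‖ ≤ 2 * √(P.p t : ℝ) * ‖x‖ := by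
        have hcard : (((Ico u v \ A).card : ℕ) : ℝ) ≤ 2 * P.m t := by
          have h1 : (Ico u v \ A).card ≤ (Ico u v).card := Finset.card_le_card Finset.sdiff_subset
          rw [Nat.card_Ico] at h1
          have : (Ico u v \ A).card ≤ 2 * P.m t := by omega
          exact_mod_cast this
        have h1 : ∑ i ∈ Ico u v \ A, ‖coo P i x‖ ≤ ((Ico u v \ A).card : ℝ) * (‖x‖ / √(n k : ℝ)) := by
          rw [← nsmul_eq_mul]
          refine Finset.sum_le_card_nsmul _ _ _ fun i hi => ?_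
          rw [le_div_iff₀ hnk]
          exact hsmall i (Finset.mem_sdiff.mp hi).2
        have h2 := m_le_sqrt hP t hk
        calc ∑ i ∈ Ico u v \ A, ‖coo P i x‖ ≤ ((Ico u v \ A).card : ℝ) * (‖x‖ / √(n k : ℝ)) := h1
          _ ≤ (2 * (√(P.p t : ℝ) * √(n k : ℝ))) * (‖x‖ / √(n k : ℝ)) := by
              refine mul_le_mul_of_nonneg_right ?_ (by positivity)
              linarith
          _ = 2 * √(P.p t : ℝ) * ‖x‖ := by field_simp
      rw [hsplit]
      calc ‖∑ i ∈ Ico u v, coo P i x - ∑ i ∈ Ico u v \ A, coo P i x‖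
          ≤ ‖∑ i ∈ Ico u v, coo P i x‖ + ‖∑ i ∈ Ico u v \ A, coo P i x‖ := norm_sub_le _ _
        _ ≤ √(P.p t : ℝ) * ‖x‖ + 2 * √(P.p t : ℝ) * ‖x‖ :=
            add_le_add (norm_sum_block_le P x t u v hu hv) ((norm_sum_le _ _).trans hD)
        _ = √(P.p t : ℝ) * (3 * ‖x‖) := by ring

lemma signedOrderConservative (hP : Good n P q) :
    SignedOrderConservative 𝕜 n (bas (𝕜 := 𝕜) P) := by
  refine ⟨2, fun k A B ε δ hAB hA hB hε hδ => ?_⟩
  set x : Sp 𝕜 P := ∑ i ∈ A, ε i • bas P i with hx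
  set y : Sp 𝕜 P := ∑ i ∈ B, δ i • bas P i with hy
  have hxc : ∀ i, ‖coo P i x‖ = if i ∈ A then 1 else 0 := by
    intro i; rw [hx, coo_sum]; split_ifs
    · exact hε i
    · simp
  have hyc : ∀ i ∈ B, ‖coo P i y‖ = 1 := by
    intro i hi; rw [hy, coo_sum, if_pos hi, hδ]
  have hxs : ∀ F : Finset ℕ, ∑ i ∈ F, ‖coo P i x‖ = ((F ∩ A).card : ℝ) := by
    intro F
    rw [Finset.sum_congr rfl fun i _ => hxc i, ← Finset.sum_filter, Finset.filter_mem_eq_inter]
    simp
  have hys : ∀ F : Finset ℕ, F ⊆ B → ∑ i ∈ F, ‖coo P i y‖ = (F.card : ℝ) := by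
    intro F hF
    rw [Finset.sum_congr rfl fun i hi => hyc i (hF hi)]
    simp
  have hy0 := norm_nonneg y
  -- the part of A beyond the block is dominated
  have hfar : ∀ (t s : ℕ), s ≤ P.m t → s ≤ A.card → (∃ i ∈ A, P.b t ≤ i) →
      (s : ℝ) ≤ √(P.p t : ℝ) * ‖y‖ := by
    intro t s hs1 hs2 hi
    obtain ⟨i, hiA, hbi⟩ := hi
    have hk : P.b t + 2 * P.m t ≤ n k := by
      rcases hP.b_cons t k with h | h
      · exact absurd (hA i hiA) (by omega)
      · exact h
    rw [hAB] at hs2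
    obtain ⟨F, hFB, hFc⟩ := Finset.exists_subset_card_eq hs2
    have := sum_norm_le_far P y t F (fun j hj => hk.trans (hB j (hFB hj))) (by omega)
    rw [hys F hFB, hFc] at this
    exact this
  refine norm_le_of_coords P _ (by positivity) ?_ ?_ ?_
  · intro F
    rw [hxs]
    have h1 : √(B.card : ℝ) ≤ ‖y‖ := by
      have h := sum_norm_le_sqrt P y B
      rw [hys B (Finset.Subset.refl _)] at h
      rcases B.eq_empty_or_nonempty with he | hne
      · simp [he]
      · have hpos : 0 < √(B.card : ℝ) := Real.sqrt_pos.mpr (by exact_mod_cast hne.card_pos)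
        have h2 : √(B.card : ℝ) * √(B.card : ℝ) ≤ √(B.card : ℝ) * ‖y‖ := by
          rw [sqrt_mul_self_nat]; exact h
        exact le_of_mul_le_mul_left h2 hpos
    have h2 : ((F ∩ A).card : ℝ) ≤ √(F.card : ℝ) * √(B.card : ℝ) := by
      rw [← Real.sqrt_mul (Nat.cast_nonneg _)]
      apply Real.le_sqrt_of_sq_le
      have ha : (F ∩ A).card ≤ F.card := Finset.card_le_card Finset.inter_subset_left
      have hb : (F ∩ A).card ≤ B.card :=
        hAB ▸ Finset.card_le_card Finset.inter_subset_right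
      have : (F ∩ A).card ^ 2 ≤ F.card * B.card := by
        rw [sq]; exact Nat.mul_le_mul ha hb
      exact_mod_cast this
    calc ((F ∩ A).card : ℝ) ≤ √(F.card : ℝ) * √(B.card : ℝ) := h2
      _ ≤ √(F.card : ℝ) * (2 * ‖y‖) := by
          refine mul_le_mul_of_nonneg_left ?_ (Real.sqrt_nonneg _)
          linarith
  · intro t F hF hc
    rw [hxs]
    rcases (F ∩ A).eq_empty_or_nonempty with he | ⟨i, hi⟩
    · rw [he]
      simp only [card_empty, Nat.cast_zero]
      positivity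
    · have hiF := (Finset.mem_inter.mp hi).1
      have hiA := (Finset.mem_inter.mp hi).2
      have h := hfar t (F ∩ A).card ((Finset.card_le_card Finset.inter_subset_left).trans hc)
        (Finset.card_le_card Finset.inter_subset_right) ⟨i, hiA, by have := hF i hiF; omega⟩
      calc ((F ∩ A).card : ℝ) ≤ √(P.p t : ℝ) * ‖y‖ := h
        _ ≤ √(P.p t : ℝ) * (2 * ‖y‖) :=
          mul_le_mul_of_nonneg_left (by linarith) (Real.sqrt_nonneg _)
  · intro t u v hu hv
    have h0 : ‖∑ i ∈ Ico u v, coo P i x‖ ≤ ((Ico u v ∩ A).card : ℝ) :=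
      (norm_sum_le _ _).trans (hxs _).le
    refine h0.trans ?_
    rcases (Ico u v ∩ A).eq_empty_or_nonempty with he | ⟨i, hi⟩
    · rw [he]
      simp only [card_empty, Nat.cast_zero]
      positivity
    · have hiI := (Finset.mem_inter.mp hi).1
      have hiA := (Finset.mem_inter.mp hi).2
      rw [mem_Ico] at hiI
      have hcI : (Ico u v ∩ A).card ≤ 2 * P.m t := by
        have h1 : (Ico u v ∩ A).card ≤ (Ico u v).card := Finset.card_le_card Finset.inter_subset_left
        rw [Nat.card_Ico] at h1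
        omega
      have hcA : (Ico u v ∩ A).card ≤ A.card := Finset.card_le_card Finset.inter_subset_right
      have h := hfar t (min (Ico u v ∩ A).card (P.m t)) (min_le_right _ _)
        ((min_le_left _ _).trans hcA) ⟨i, hiA, by omega⟩
      have h2 : (Ico u v ∩ A).card ≤ 2 * min (Ico u v ∩ A).card (P.m t) := by omega
      have h3 : ((Ico u v ∩ A).card : ℝ) ≤ 2 * ((min (Ico u v ∩ A).card (P.m t) : ℕ) : ℝ) := by
        exact_mod_cast h2
      calc ((Ico u v ∩ A).card : ℝ) ≤ 2 * ((min (Ico u v ∩ A).card (P.m t) : ℕ) : ℝ) := h3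
        _ ≤ 2 * (√(P.p t : ℝ) * ‖y‖) := by linarith
        _ = √(P.p t : ℝ) * (2 * ‖y‖) := by ring

lemma orderConservative_of_signed (h : SignedOrderConservative 𝕜 n (bas (𝕜 := 𝕜) P)) :
    OrderConservative n (bas (𝕜 := 𝕜) P) := by
  obtain ⟨C, hC⟩ := h
  refine ⟨C, fun k A B hAB hA hB => ?_⟩
  have := hC k A B (fun _ => 1) (fun _ => 1) hAB hA hB (by simp) (by simp)
  simpa using this

lemma alt_sum_norm (u v : ℕ) : ‖∑ i ∈ Ico u v, ((-1 : 𝕜)) ^ i‖ ≤ 1 := by
  rw [Finset.sum_Ico_eq_sum_range]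
  simp only [pow_add]
  rw [← Finset.mul_sum, neg_one_geom_sum, norm_mul, norm_pow, norm_neg, norm_one, one_pow, one_mul]
  split_ifs <;> simp

lemma blocks_sep (hP : Good n P q) {s t : ℕ} (hst : s < t) : P.b s + 2 * P.m s ≤ P.p t := by
  have hpb : ∀ r, P.p r ≤ P.b r := by
    intro r
    have h1 := hP.m_le r
    have h2 := hP.q_le_b r
    have h3 : P.p r ≤ P.m r := by
      rw [hP.m_eq r]; exact Nat.le_mul_of_pos_left _ (Nat.succ_pos _)
    omega
  induction t, hst using Nat.le_induction with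
  | base => exact hP.next s
  | succ t _ ih =>
    have h1 := hP.next t
    have h2 := hpb t
    omega

lemma not_partiallyGreedy (hP : Good n P q) :
    ¬ PartiallyGreedy n (bas (𝕜 := 𝕜) P) (coo P) := by
  rintro ⟨C, hC⟩
  obtain ⟨t, ht⟩ := exists_nat_gt (2 * C ^ 2)
  obtain ⟨k, hk⟩ := hP.q_mem t
  have hmq := hP.m_le t
  have hqb := hP.q_le_b t
  have hmeq := hP.m_eq t
  have hp0 := P.p_pos t
  have hpm : P.p t ≤ P.m t := by
    rw [hmeq]; exact Nat.le_mul_of_pos_left _ (Nat.succ_pos _)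
  set b := P.b t with hb
  set m := P.m t with hm
  -- the sets
  set D := range (q t - m) with hD
  set I := Ico b (b + 2 * m) with hI
  set E := (range m).image (fun i => b + 2 * i) with hE
  have hEI : E ⊆ I := by
    intro i hi
    simp only [hE, mem_image, mem_range] at hi
    obtain ⟨j, hj, rfl⟩ := hi
    simp only [hI, mem_Ico]; omega
  have hEcard : E.card = m := by
    rw [hE, Finset.card_image_of_injective _ (fun i j h => by simpa using h), card_range]
  have hDE : Disjoint D E := by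
    rw [Finset.disjoint_left]
    intro i hi hi'
    have := hEI hi'
    simp only [hD, mem_range, hI, mem_Ico] at hi this
    omega
  have hDI : ∀ i ∈ D, i ∉ I := by
    intro i hi hi'
    simp only [hD, mem_range, hI, mem_Ico] at hi hi'
    omega
  -- the coefficients
  let c : ℕ → 𝕜 := fun i => if i ∈ D then 1 else if i ∈ E then 1 else -1
  have hc1 : ∀ i, ‖c i‖ = 1 := by
    intro i; simp only [c]; split_ifs <;> simp
  set x : Sp 𝕜 P := ∑ i ∈ D ∪ I, c i • bas P i with hx
  have hxc : ∀ i, coo P i x = if i ∈ D ∪ I then c i else 0 := fun i => by rw [hx, coo_sum]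
  have hgreedy : IsGreedySet (coo P) x (D ∪ E) := by
    intro i hi j _
    have hi' : i ∈ D ∪ I := Finset.union_subset_union_right hEI hi
    rw [hxc i, if_pos hi', hc1, hxc j]
    split_ifs
    · exact (hc1 j).le
    · simp
  have hcard : (D ∪ E).card = n k := by
    rw [Finset.card_union_of_disjoint hDE, hEcard, hD, card_range, hk]; omega
  have key := hC x k (D ∪ E) hcard hgreedy
  set z := x - proj (bas P) (coo P) (D ∪ E) x with hz
  set y := x - proj (bas P) (coo P) (range (n k)) x with hy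
  have hzc : ∀ i, coo P i z = if i ∈ I \ E then -1 else 0 := by
    intro i
    rw [hz, map_sub, coo_proj, hxc]
    by_cases h1 : i ∈ D
    · simp [h1, hDI i h1]
    · by_cases h2 : i ∈ E
      · simp [h1, h2]
      · by_cases h3 : i ∈ I
        · simp [h1, h2, h3, c]
        · simp [h1, h2, h3]
  have hyc : ∀ i, coo P i y = if i ∈ I then (if i ∈ E then 1 else -1) else 0 := by
    intro i
    rw [hy, map_sub, coo_proj, hxc, hk]
    by_cases h1 : i ∈ D
    · have h4 : i < q t := by simp only [hD, mem_range] at h1; omega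
      simp [h1, hDI i h1, h4]
    · by_cases h3 : i ∈ I
      · have h4 : ¬ i < q t := by simp only [hI, mem_Ico] at h3; omega
        simp [h1, h3, h4, c]
      · simp [h1, h3]
  -- lower bound for z
  have hzlow : (m : ℝ) ≤ √(P.p t : ℝ) * ‖z‖ := by
    have h := norm_sum_block_le P z t b (b + 2 * m) le_rfl le_rfl
    have h2 : ∑ i ∈ Ico b (b + 2 * m), coo P i z = -((m : ℕ) : 𝕜) := by
      rw [Finset.sum_congr rfl fun i _ => hzc i, ← Finset.sum_filter]
      have h3 : (Ico b (b + 2 * m)).filter (fun i => i ∈ I \ E) = I \ E := by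
        ext i
        simp only [mem_filter]
        exact ⟨fun h => h.2, fun h => ⟨(Finset.mem_sdiff.mp h).1, h⟩⟩
      rw [h3, Finset.sum_const, Finset.card_sdiff_of_subset hEI, hEcard, hI, Nat.card_Ico]
      have h4 : b + 2 * m - b - m = m := by omega
      rw [h4]; simp
    rw [h2, norm_neg, RCLike.norm_natCast] at h
    exact h
  -- parity description of the coordinates of y on I
  have hpar : ∀ i ∈ I, coo P i y = (-1) ^ b * (-1) ^ i := by
    intro i hi
    rw [hyc, if_pos hi]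
    simp only [hI, mem_Ico] at hi
    obtain ⟨j, rfl⟩ := Nat.exists_eq_add_of_le hi.1
    have h5 : (-1 : 𝕜) ^ b * (-1) ^ (b + j) = (-1) ^ j := by
      rw [pow_add, ← mul_assoc, ← mul_pow]; simp
    rw [h5]
    rcases Nat.even_or_odd j with hj | hj
    · have : b + j ∈ E := by
        obtain ⟨l, rfl⟩ := hj
        simp only [hE, mem_image, mem_range]
        exact ⟨l, by omega, by omega⟩
      rw [if_pos this, hj.neg_one_pow]
    · have : b + j ∉ E := by
        obtain ⟨l, rfl⟩ := hj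
        simp only [hE, mem_image, mem_range, not_exists, not_and]
        intro r _; omega
      rw [if_neg this, hj.neg_one_pow]
  have hyn : ∀ i, ‖coo P i y‖ = if i ∈ I then 1 else 0 := by
    intro i; rw [hyc]; split_ifs <;> simp
  have hys : ∀ F : Finset ℕ, ∑ i ∈ F, ‖coo P i y‖ = ((F ∩ I).card : ℝ) := by
    intro F
    rw [Finset.sum_congr rfl fun i _ => hyn i, ← Finset.sum_filter, Finset.filter_mem_eq_inter]
    simp
  have hIcard : I.card = 2 * m := by rw [hI, Nat.card_Ico]; omega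
  -- upper bound for y
  have hyup : ‖y‖ ≤ √((2 * m : ℕ) : ℝ) := by
    refine norm_le_of_coords P _ (Real.sqrt_nonneg _) ?_ ?_ ?_
    · intro F
      rw [hys, ← Real.sqrt_mul (Nat.cast_nonneg _)]
      apply Real.le_sqrt_of_sq_le
      have ha : (F ∩ I).card ≤ F.card := Finset.card_le_card Finset.inter_subset_left
      have hb' : (F ∩ I).card ≤ 2 * m := by
        rw [← hIcard]; exact Finset.card_le_card Finset.inter_subset_right
      have : (F ∩ I).card ^ 2 ≤ F.card * (2 * m) := by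
        rw [sq]; exact Nat.mul_le_mul ha hb'
      exact_mod_cast this
    · intro s F hF hc
      rw [hys]
      rcases (F ∩ I).eq_empty_or_nonempty with he | ⟨i, hi⟩
      · rw [he]
        simp only [card_empty, Nat.cast_zero]
        positivity
      · have hiF := hF i (Finset.mem_inter.mp hi).1
        have hiI := (Finset.mem_inter.mp hi).2
        simp only [hI, mem_Ico] at hiI
        have hst : s < t := by
          by_contra hcon
          rcases Nat.eq_or_lt_of_le (Nat.le_of_not_lt hcon) with h | h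
          · subst h; omega
          · have h1 := blocks_sep hP h
            have h2 := hP.m_le s
            have h3 := hP.q_le_b s
            have h4 : P.p s ≤ P.m s := by
              rw [hP.m_eq s]; exact Nat.le_mul_of_pos_left _ (Nat.succ_pos _)
            omega
        have h1 := blocks_sep hP hst
        have h2 := hP.q_le_b s
        have h3 : (P.m s : ℝ) ≤ √(P.p s : ℝ) * √((2 * m : ℕ) : ℝ) :=
          m_le_sqrt hP s (by omega)
        have h4 : ((F ∩ I).card : ℝ) ≤ P.m s := by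
          exact_mod_cast (Finset.card_le_card Finset.inter_subset_left).trans hc
        linarith
    · intro s u v hu hv
      have hone : (1 : ℝ) ≤ √(P.p s : ℝ) * √((2 * m : ℕ) : ℝ) := by
        have h1 := one_le_sqrt_nat (P.p_pos s)
        have h2 := one_le_sqrt_nat (show 0 < 2 * m by omega)
        nlinarith
      by_cases hst : s = t
      · subst hst
        have h1 : ∑ i ∈ Ico u v, coo P i y = (-1) ^ b * ∑ i ∈ Ico u v, (-1 : 𝕜) ^ i := by
          rw [Finset.mul_sum]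
          refine Finset.sum_congr rfl fun i hi => hpar i ?_
          simp only [hI, mem_Ico] at hi ⊢
          omega
        rw [h1, norm_mul, norm_pow, norm_neg, norm_one, one_pow, one_mul]
        exact (alt_sum_norm u v).trans hone
      · have h1 : ∑ i ∈ Ico u v, coo P i y = 0 := by
          refine Finset.sum_eq_zero fun i hi => ?_
          rw [hyc, if_neg]
          intro hi'
          simp only [hI, mem_Ico] at hi hi'
          have hpb : ∀ r, P.p r ≤ P.b r := by
            intro r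
            have h1 := hP.m_le r
            have h2 := hP.q_le_b r
            have h3 : P.p r ≤ P.m r := by
              rw [hP.m_eq r]; exact Nat.le_mul_of_pos_left _ (Nat.succ_pos _)
            omega
          rcases Nat.lt_or_gt_of_ne hst with h | h
          · have h1 := blocks_sep hP h
            have h2 := hpb t
            omega
          · have h1 := blocks_sep hP h
            have h2 := hpb s
            omega
        rw [h1, norm_zero]
        linarith
  -- conclusion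
  have hm0 : 0 < m := by omega
  have hC0 : (m : ℝ) ≤ √(P.p t : ℝ) * (C * ‖y‖) :=
    hzlow.trans (mul_le_mul_of_nonneg_left key (Real.sqrt_nonneg _))
  have hCpos : 0 < C := by
    by_contra hneg
    have h1 : C * ‖y‖ ≤ 0 := mul_nonpos_of_nonpos_of_nonneg (not_lt.mp hneg) (norm_nonneg _)
    have h2 : √(P.p t : ℝ) * (C * ‖y‖) ≤ 0 :=
      mul_nonpos_of_nonneg_of_nonpos (Real.sqrt_nonneg _) h1
    have h3 : (0 : ℝ) < m := by exact_mod_cast hm0
    linarith
  have h1 : (m : ℝ) ≤ √(P.p t : ℝ) * (C * √((2 * m : ℕ) : ℝ)) := by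
    refine hC0.trans (mul_le_mul_of_nonneg_left ?_ (Real.sqrt_nonneg _))
    exact mul_le_mul_of_nonneg_left hyup hCpos.le
  have h2 : (m : ℝ) ^ 2 ≤ (P.p t : ℝ) * C ^ 2 * (2 * m) := by
    have h3 : (m : ℝ) ^ 2 ≤ (√(P.p t : ℝ) * (C * √((2 * m : ℕ) : ℝ))) ^ 2 :=
      pow_le_pow_left₀ (Nat.cast_nonneg _) h1 2
    have h4 : (√(P.p t : ℝ) * (C * √((2 * m : ℕ) : ℝ))) ^ 2
        = (P.p t : ℝ) * C ^ 2 * (2 * m) := by
      rw [mul_pow, mul_pow, Real.sq_sqrt (Nat.cast_nonneg _), Real.sq_sqrt (Nat.cast_nonneg _)]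
      push_cast; ring
    rwa [h4] at h3
  have hmR : (0 : ℝ) < m := by exact_mod_cast hm0
  have hpR : (0 : ℝ) < P.p t := by exact_mod_cast hp0
  have h3 : (m : ℝ) ≤ 2 * C ^ 2 * P.p t := by
    have : (m : ℝ) * m ≤ m * (2 * C ^ 2 * P.p t) := by nlinarith
    exact le_of_mul_le_mul_left this hmR
  have h4 : (m : ℝ) = (t + 1) * P.p t := by
    rw [hmeq]; push_cast; ring
  rw [h4] at h3
  have h5 : (t + 1 : ℝ) ≤ 2 * C ^ 2 := le_of_mul_le_mul_right h3 hpR
  linarith

end Main

section Basis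

variable {𝕜 : Type} [RCLike 𝕜] {P : Params}

lemma norm_bas_le (i : ℕ) : ‖bas (𝕜 := 𝕜) P i‖ ≤ 1 := by
  have : ‖vecE (𝕜 := 𝕜) P i‖ ≤ 1 := by
    rw [BoundedContinuousFunction.norm_le zero_le_one]
    intro g
    exact g.adm.norm_le_one i
  exact this

lemma norm_coo_le (i : ℕ) : ‖coo (𝕜 := 𝕜) P i‖ ≤ 1 := by
  refine ContinuousLinearMap.opNorm_le_bound _ zero_le_one fun x => ?_
  have := sum_norm_le_sqrt P x {i}
  simpa using this

lemma dense_span_bas : (Submodule.span 𝕜 (Set.range (bas (𝕜 := 𝕜) P))).topologicalClosure = ⊤ := by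
  rw [Submodule.eq_top_iff']
  intro x
  have hmap : (Submodule.span 𝕜 (Set.range (bas (𝕜 := 𝕜) P))).map (spc 𝕜 P).subtype
      = Submodule.span 𝕜 (Set.range (vecE (𝕜 := 𝕜) P)) := by
    rw [Submodule.map_span, ← Set.range_comp]
    rfl
  have hx := x.2
  unfold spc at hx
  rw [← SetLike.mem_coe, Submodule.topologicalClosure_coe] at hx ⊢
  rw [Topology.IsInducing.subtypeVal.closure_eq_preimage_closure_image, Set.mem_preimage]
  have himg : (Subtype.val '' (Submodule.span 𝕜 (Set.range (bas (𝕜 := 𝕜) P)) : Set (Sp 𝕜 P)))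
      = (Submodule.span 𝕜 (Set.range (vecE (𝕜 := 𝕜) P)) : Set _) := by
    rw [← hmap]; rfl
  exact (congrArg closure himg).symm ▸ hx

lemma isSchauderBasis : IsSchauderBasis (bas (𝕜 := 𝕜) P) (coo P) where
  biorthogonal := coo_bas P
  dense_span := dense_span_bas
  total := by
    intro x hx
    rw [← norm_le_zero_iff]
    refine norm_le_of_coords P x le_rfl ?_ ?_ ?_
    · intro F; simp [hx]
    · intro t F _ _; simp [hx]
    · intro t u v _ _; simp [hx]
  bounded := ⟨1, fun i => ⟨norm_bas_le i, norm_coo_le i⟩⟩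
  partialSums := ⟨1, fun m x => by rw [one_mul]; exact partialSum_le m x⟩

lemma separable_of_basis {X : Type} [NormedAddCommGroup X] [NormedSpace 𝕜 X] {e : ℕ → X}
    {es : ℕ → X →L[𝕜] 𝕜} (h : IsSchauderBasis e es) : TopologicalSpace.SeparableSpace X := by
  have h1 : TopologicalSpace.IsSeparable (Submodule.span 𝕜 (Set.range e) : Set X) :=
    (Set.countable_range e).isSeparable.span
  have h2 := h1.closure
  rw [← Submodule.topologicalClosure_coe, h.dense_span] at h2
  rwa [Submodule.top_coe, TopologicalSpace.isSeparable_univ_iff] at h2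

lemma infinite_of_basis {X : Type} [NormedAddCommGroup X] [NormedSpace 𝕜 X] {e : ℕ → X}
    {es : ℕ → X →L[𝕜] 𝕜} (h : IsSchauderBasis e es) : ¬ FiniteDimensional 𝕜 X := by
  intro hfin
  have hli : LinearIndependent 𝕜 e := by
    rw [linearIndependent_iff']
    intro s g hg i hi
    have := congrArg (es i) hg
    rw [map_sum] at this
    simp only [map_smul, h.biorthogonal, smul_eq_mul, mul_ite, mul_one, mul_zero, map_zero] at this
    rw [Finset.sum_ite_eq, if_pos hi] at this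
    exact this
  have := hli.finite
  exact not_finite ℕ

end Basis

/-- For every strictly increasing sequence `n` of positive integers with arbitrarily large gaps
and `𝕜 = ℝ` or `ℂ` there is a separable infinite-dimensional Banach space with a monotone
Schauder basis that is `n`-quasi-greedy and `n`-order-conservative (even in the signed form), but
not `n`-partially greedy. -/
theorem result (𝕜 : Type) [RCLike 𝕜] (n : ℕ → ℕ) (hpos : ∀ k, 0 < n k) (hmono : StrictMono n)
    (hgap : ArbitrarilyLargeGaps n) :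
    ∃ (X : Type) (_ : NormedAddCommGroup X) (_ : NormedSpace 𝕜 X) (e : ℕ → X)
      (es : ℕ → X →L[𝕜] 𝕜),
      CompleteSpace X ∧ TopologicalSpace.SeparableSpace X ∧ ¬ FiniteDimensional 𝕜 X ∧
      IsSchauderBasis e es ∧ (∀ m x, ‖proj e es (range m) x‖ ≤ ‖x‖) ∧
      QuasiGreedy n e es ∧ OrderConservative n e ∧ SignedOrderConservative 𝕜 n e ∧
      ¬ PartiallyGreedy n e es := by
  obtain ⟨P, q, hP⟩ := exists_good n hpos hmono hgap
  refine ⟨Sp 𝕜 P, inferInstance, inferInstance, bas P, coo P, inferInstance,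
    separable_of_basis isSchauderBasis, infinite_of_basis isSchauderBasis, isSchauderBasis,
    partialSum_le, quasiGreedy hP, orderConservative_of_signed (signedOrderConservative hP),
    signedOrderConservative hP, not_partiallyGreedy hP⟩

end Pool.Agent.Results.MP_6095cf_an.LargeGaps
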